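import Pool.Agent.Y86.G5.Rgin1

/-!
# The inertia groups outside the vertex
-/

set_option autoImplicit false

namespace Pool.Agent.Y86.G5

open Pool.Agent.Y223.G

section

variable {k O K G : Type} [CommRing k] [CommRing O] [Field K] [Group G]
    [Algebra O K] [Algebra k K] {ρ : G →* (K ≃ₐ[k] K)} {N : Type} {𝔔 : N → Ideal O}
    {p l : N → ℕ} {τ : N → G} {C : Subalgebra O K}

theorem mem_RG {f : LP K} : f ∈ RG k ρ 𝔔 p l τ C ↔ f ∈ RR k 1 1 ⊤ 0 C ∧
    ∀ i, f ∈ RR k (ρ (τ i)) (p i) (𝔔 i) (l i) C := by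
  unfold RG
  rw [Algebra.mem_inf, Algebra.mem_iInf]

theorem RG_c (hp : ∀ i, 0 < p i) {c : K} (hc : c ∈ C) : hm 0 c ∈ RG k ρ 𝔔 p l τ C :=
  mem_RG.2 ⟨RR_c one_pos hc, fun i => RR_c (hp i) hc⟩

theorem RG_e {e : O} (he : ∀ i, e ∈ 𝔔 i) :
    hm 1 (algebraMap O K e) ∈ RG k ρ 𝔔 p l τ C :=
  mem_RG.2 ⟨RR_e Submodule.mem_top, fun i => RR_e (he i)⟩

end

/-- The product over an orbit. -/
theorem prod_orbit {A : Type} [CommMonoid A] (f : ℕ → A) {n : ℕ} (hn : 0 < n) (h : f n = f 0) :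
    ∏ a ∈ Finset.range n, f (a + 1) = ∏ a ∈ Finset.range n, f a := by
  obtain ⟨m, rfl⟩ := Nat.exists_eq_add_of_lt hn
  rw [zero_add] at h ⊢
  rw [Finset.prod_range_succ (fun a => f (a + 1)), Finset.prod_range_succ' f, h]

theorem t_RGIN : S_RPRIN0 → S_RGLU → S_RGIN := by
  intro hP hG k O K G _ _ _ _ _ _ _ _ _ _ _ ρ T N _ 𝔔 p l τ hL C hC R hR Q hQ hv
  classical
  have hp : ∀ i, 0 < p i := by
    intro i
    rcases hL.ty i with h | h
    · rw [h.1]
      exact one_pos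
    · exact h.1.pp.pos
  have hR0 : ∀ o : O, hm 0 (algebraMap O K o) ∈ R := by
    intro o
    rw [hR]
    exact RG_c hp (C.algebraMap_mem o)
  -- the prime ideal of the base
  let φ : O →+* R := (((zer k K : K →ₐ[k] LP K) : K →+* LP K).comp
    (algebraMap O K)).codRestrict R hR0
  have hφ : ∀ o, o ∈ Q.comap φ ↔ hm 0 (algebraMap O K o) ∈ im R Q :=
    fun o => ⟨fun h => ⟨hR0 o, h⟩, fun h => h.2⟩
  have hqp : (Q.comap φ).IsPrime := Ideal.comap_isPrime φ Q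
  have htl : ∀ g (d : ℤ) (o : O), tl (ρ g) (hm d (algebraMap O K o)) - hm d (algebraMap O K o) =
      hm d (algebraMap O K (T g o - o)) := by
    intro g d o
    rw [tl_hm, hL.com, ← hm_sub, ← map_sub]
  have hin : ∀ g, (∀ f ∈ R, ∃ h : tl (ρ g) f - f ∈ R, (⟨tl (ρ g) f - f, h⟩ : R) ∈ Q) →
      ∀ o, T g o - o ∈ Q.comap φ := by
    intro g hg o
    rw [hφ, ← htl]
    exact hg _ (hR0 o)
  by_cases hi : ∀ i, Q.comap φ ≠ 𝔔 i
  · left
    intro g hg
    exact hL.al _ hqp hi g (hin g hg)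
  push Not at hi
  obtain ⟨i, hi⟩ := hi
  have hmi := hL.mx i
  have hQi : ∀ o, o ∈ 𝔔 i ↔ hm 0 (algebraMap O K o) ∈ im R Q := by
    intro o
    rw [← hi]
    exact hφ o
  have hin' : ∀ g, (∀ f ∈ R, ∃ h : tl (ρ g) f - f ∈ R, (⟨tl (ρ g) f - f, h⟩ : R) ∈ Q) →
      ∀ o, T g o - o ∈ 𝔔 i := by
    intro g hg o
    rw [← hi]
    exact hin g hg o
  obtain ⟨s0, hs0, hs0'⟩ := exists_avoid 𝔔 hL.mx hL.dj i
  obtain ⟨R', hR'⟩ : ∃ R', R' = RR k (ρ (τ i)) (p i) (𝔔 i) (l i) C := ⟨_, rfl⟩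
  have hle : R ≤ R' := by
    intro f hf
    rw [hR] at hf
    rw [hR']
    exact (mem_RG.1 hf).2 i
  have hglu : ∀ s : O, (∀ j, j ≠ i → s ∈ 𝔔 j) → ∀ f ∈ R',
      ∃ n : ℕ, hm 0 (algebraMap O K s) ^ n * f ∈ R := by
    intro s hs f hf
    rw [hR'] at hf
    rw [hR]
    exact (hG k O K G ρ T N 𝔔 p l τ hL C hC).1 i s hs f hf
  have hS0Q : hm 0 (algebraMap O K s0) ∉ im R Q := fun h => hs0' ((hQi s0).2 h)
  obtain ⟨Q', hQ'⟩ : ∃ Q', Q' = up R R' Q (hm 0 (algebraMap O K s0)) (hR0 s0)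
    (hglu s0 hs0) := ⟨_, rfl⟩
  have hQ'p : Q'.IsPrime := by
    rw [hQ']
    exact up_prime hQ _ _ hS0Q
  have hinter : ∀ f ∈ R, f ∈ im R' Q' ↔ f ∈ im R Q := by
    intro f hf
    rw [hQ']
    exact up_inter hQ hS0Q hle hf
  have hQ'i : ∀ o, o ∈ 𝔔 i ↔ hm 0 (algebraMap O K o) ∈ im R' Q' := by
    intro o
    rw [hinter _ (hR0 o)]
    exact hQi o
  -- outside the vertex
  obtain ⟨e, η, he, he0, heQ⟩ := hv
  have heQ' : hm e η ∉ im R' Q' := fun h => heQ ((hinter _ he).1 h).2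
  rcases hL.ty i with ⟨hp1, ht⟩ | ⟨hw, hτ, hz⟩
  · left
    intro g hg
    have hT := hin' g hg
    refine ht g hT ?_
    by_contra hcon
    push Not at hcon
    obtain ⟨x, hx, hx2⟩ := hcon
    have hex : ∃ e0 ∈ 𝔔 i, hm 1 (algebraMap O K e0) ∉ im R' Q' := by
      by_contra h0
      push Not at h0
      apply heQ'
      have h1 := tame_gen (τ := ρ (τ i)) (l := l i) (𝔓 := 𝔔 i) (C := C) R'
        (by rw [hR', hp1]) Q' h0 (hm e η) (hle he) e (by exact_mod_cast he0)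
      rwa [coeff_hm_same] at h1
    obtain ⟨e0, he0', he0Q⟩ := hex
    have hTx : T g x ∈ 𝔔 i := by
      have h1 := (𝔔 i).add_mem (hT x) hx
      rwa [sub_add_cancel] at h1
    have hπ : T g (s0 * x) - s0 * x = s0 * (T g x - x) + (T g s0 - s0) * T g x := by
      rw [map_mul]
      ring
    have hπ2 : T g (s0 * x) - s0 * x ∉ 𝔔 i ^ 2 := by
      intro h
      apply hx2
      apply sq_primary hmi hs0'
      have h1 : s0 * (T g x - x) = (T g (s0 * x) - s0 * x) - (T g s0 - s0) * T g x := by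
        rw [hπ]
        ring
      rw [h1]
      refine (𝔔 i ^ 2).sub_mem h ?_
      rw [pow_two]
      exact Ideal.mul_mem_mul (hT s0) hTx
    obtain ⟨s', hs', hc⟩ := loc_gen (hT (s0 * x)) hπ2
    obtain ⟨c, hc⟩ := hc e0 he0'
    have hmem : hm 1 (algebraMap O K (s0 * x)) ∈ R := by
      rw [hR]
      apply RG_e
      intro j
      by_cases hj : j = i
      · rw [hj]
        exact (𝔔 i).mul_mem_left _ hx
      · exact (𝔔 j).mul_mem_right _ (hs0 j hj)
    have h7 : hm 1 (algebraMap O K (T g (s0 * x) - s0 * x)) ∈ im R Q := by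
      rw [← htl]
      exact hg _ hmem
    have h8 : hm 0 (algebraMap O K s') * hm 1 (algebraMap O K e0) ∈ im R' Q' := by
      have h9 : (hm 0 (algebraMap O K s') * hm 1 (algebraMap O K e0) : LP K) =
          hm 0 (algebraMap O K c) * hm 1 (algebraMap O K (T g (s0 * x) - s0 * x)) := by
        rw [hm_mul, hm_mul, ← map_mul, ← map_mul, hc]
      rw [h9]
      have h10 := im_mul (hR0 c) h7
      exact (hinter _ (im_sub h10)).2 h10
    have h11 : hm 1 (algebraMap O K e0) ∈ R' := by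
      rw [hR']
      exact RR_e he0'
    rcases im_prime hQ'p (hle (hR0 s')) h11 h8 with h | h
    · exact hs' ((hQ'i s').2 h)
    · exact he0Q h
  · right
    refine ⟨p i, τ i, hw.pp, hτ, fun g hg => hz g (hin' g hg), ?_⟩
    have hb' : ∃ b ∈ R', ∀ c ∈ R', ∃ (s : LP K) (hs : s ∈ R'), (⟨s, hs⟩ : R') ∉ Q' ∧
        ∃ u ∈ R', s * (tl (ρ (τ i)) c - c) = u * (tl (ρ (τ i)) b - b) := by
      have h1 : ∀ e ∈ 𝔔 i, ∃ h : hm 0 (algebraMap O K e) ∈ R', (⟨_, h⟩ : R') ∈ Q' :=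
        fun e he => (hQ'i e).1 he
      have h2 : ∃ (e : ℕ) (η : K) (he : hm e η ∈ R'), 0 < e ∧ (⟨hm e η, he⟩ : R') ∉ Q' :=
        ⟨e, η, hle he, he0, fun h => heQ' ⟨hle he, h⟩⟩
      clear hQ' hinter hQ'i heQ'
      subst hR'
      exact hP k O K (p i) (ρ (τ i)) (T (τ i)) (𝔔 i) (l i) hw C (hC (τ i)) Q' hQ'p h1 h2
    obtain ⟨b, hb, hbc⟩ := hb'
    -- an invariant element of the other ideals
    have hit : ∀ (n : ℕ) (x : O), (T (τ i))^[n] x = T (τ i ^ n) x := by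
      intro n
      induction n with
      | zero =>
        intro x
        rw [pow_zero, map_one]
        rfl
      | succ n ih =>
        intro x
        rw [Function.iterate_succ_apply, ih, pow_succ, map_mul]
        rfl
    set s1 : O := ∏ a ∈ Finset.range (p i), (T (τ i))^[a] s0 with hs1
    have hs1T : T (τ i) s1 = s1 := by
      rw [hs1, map_prod]
      have h1 : ∀ a ∈ Finset.range (p i), T (τ i) ((T (τ i))^[a] s0) =
          (T (τ i))^[a + 1] s0 := fun a _ => by rw [Function.iterate_succ_apply']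
      rw [Finset.prod_congr rfl h1]
      refine prod_orbit (fun a => (T (τ i))^[a] s0) (hp i) ?_
      show (T (τ i))^[p i] s0 = (T (τ i))^[0] s0
      rw [hit, hit, hτ, pow_zero]
    have hs1i : s1 ∉ 𝔔 i := by
      intro h
      have := hmi.isPrime
      obtain ⟨a, -, ha⟩ := (Ideal.IsPrime.prod_mem_iff).1 h
      have h1 : ∀ a : ℕ, (T (τ i))^[a] s0 ∉ 𝔔 i := by
        intro a
        induction a with
        | zero => exact hs0'
        | succ a ih =>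
          intro h
          apply ih
          rw [Function.iterate_succ_apply'] at h
          have h2 : T (τ i) ((T (τ i))^[a] s0) - (T (τ i))^[a] s0 ∈ 𝔔 i :=
            Ideal.pow_le_self (Nat.succ_ne_zero _) (hw.dv _)
          have h3 := (𝔔 i).sub_mem h h2
          rwa [sub_sub_cancel] at h3
      exact h1 a ha
    have hs1j : ∀ j, j ≠ i → s1 ∈ 𝔔 j := by
      intro j hj
      have h1 : (T (τ i))^[0] s0 ∣ s1 :=
        Finset.dvd_prod_of_mem (fun a => (T (τ i))^[a] s0) (Finset.mem_range.2 (hp i))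
      exact (𝔔 j).mem_of_dvd h1 (hs0 j hj)
    obtain ⟨S1, hS1⟩ : ∃ S1 : LP K, S1 = hm 0 (algebraMap O K s1) := ⟨_, rfl⟩
    have hS1R : S1 ∈ R := by
      rw [hS1]
      exact hR0 s1
    have hS1T : tl (ρ (τ i)) S1 = S1 := by
      rw [hS1, tl_hm, hL.com, hs1T]
    have hS1Q : S1 ∉ im R' Q' := by
      rw [hS1]
      exact fun h => hs1i ((hQ'i s1).2 h)
    have hgl1 : ∀ f ∈ R', ∃ n : ℕ, S1 ^ n * f ∈ R := by
      rw [hS1]
      exact hglu s1 hs1j
    obtain ⟨n, hn⟩ := hgl1 b hb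
    refine ⟨S1 ^ n * b, hn, fun c hc => ?_⟩
    obtain ⟨s, hs, hsQ, u, hu, hsu⟩ := hbc c (hle hc)
    obtain ⟨m, hm⟩ := hgl1 s hs
    obtain ⟨m', hm'⟩ := hgl1 u hu
    have hs2 : S1 ^ (n + m') * (S1 ^ m * s) ∈ R := R.mul_mem (R.pow_mem hS1R _) hm
    refine ⟨S1 ^ (n + m') * (S1 ^ m * s), hs2, ?_, S1 ^ m * (S1 ^ m' * u),
      R.mul_mem (R.pow_mem hS1R _) hm', ?_⟩
    · intro h
      have h1 : S1 ^ (n + m') * (S1 ^ m * s) ∈ im R' Q' := (hinter _ hs2).2 ⟨hs2, h⟩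
      have h2 : S1 ^ (n + m') * (S1 ^ m * s) = S1 ^ (n + m' + m) * s := by ring
      rw [h2] at h1
      rcases im_prime hQ'p (R'.pow_mem (hle hS1R) _) hs h1 with h3 | h3
      · exact im_pow hQ'p (hle hS1R) hS1Q _ h3
      · exact hsQ h3.2
    · have h1 : tl (ρ (τ i)) (S1 ^ n * b) - S1 ^ n * b = S1 ^ n * (tl (ρ (τ i)) b - b) := by
        rw [map_mul, map_pow, hS1T]
        ring
      rw [h1]
      have h2 : S1 ^ (n + m') * (S1 ^ m * s) * (tl (ρ (τ i)) c - c) =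
          S1 ^ (n + m' + m) * (s * (tl (ρ (τ i)) c - c)) := by ring
      rw [h2, hsu]
      ring

end Pool.Agent.Y86.G5
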