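import Pool.Agent.Y223.G.Stm5

/-!
# Inertia groups outside the vertex: prime ideals of the graded algebras
-/

set_option autoImplicit false

namespace Pool.Agent.Y86.G5

open Pool.Agent.Y223.G

section im

variable {k K : Type} [CommRing k] [Field K] [Algebra k K]

/-- The elements of an ideal of a subalgebra. -/
def im (R : Subalgebra k (LP K)) (Q : Ideal R) : AddSubmonoid (LP K) where
  carrier := {f | ∃ h : f ∈ R, (⟨f, h⟩ : R) ∈ Q}
  add_mem' := by
    rintro f g ⟨hf, hf'⟩ ⟨hg, hg'⟩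
    exact ⟨R.add_mem hf hg, Q.add_mem hf' hg'⟩
  zero_mem' := ⟨R.zero_mem, Q.zero_mem⟩

variable {R R' : Subalgebra k (LP K)} {Q : Ideal R}

theorem mem_im {f : LP K} : f ∈ im R Q ↔ ∃ h : f ∈ R, (⟨f, h⟩ : R) ∈ Q := Iff.rfl

theorem mem_im' {f : R} : (f : LP K) ∈ im R Q ↔ f ∈ Q :=
  ⟨fun h => h.2, fun h => ⟨f.2, h⟩⟩

theorem im_sub {f : LP K} (h : f ∈ im R Q) : f ∈ R := h.1

theorem im_mul {f g : LP K} (hf : f ∈ R) (hg : g ∈ im R Q) : f * g ∈ im R Q := by
  obtain ⟨hg1, hg2⟩ := hg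
  have h := Q.mul_mem_left (⟨f, hf⟩ : R) hg2
  exact ⟨R.mul_mem hf hg1, h⟩

theorem im_prime (hQ : Q.IsPrime) {f g : LP K} (hf : f ∈ R) (hg : g ∈ R)
    (h : f * g ∈ im R Q) : f ∈ im R Q ∨ g ∈ im R Q := by
  have h1 : (⟨f, hf⟩ : R) * ⟨g, hg⟩ ∈ Q := h.2
  rcases hQ.mem_or_mem h1 with h2 | h2
  · exact Or.inl ⟨hf, h2⟩
  · exact Or.inr ⟨hg, h2⟩

theorem im_one (hQ : Q.IsPrime) : (1 : LP K) ∉ im R Q := by
  rintro ⟨h, h'⟩
  exact hQ.ne_top ((Ideal.eq_top_iff_one Q).2 h')

theorem im_pow (hQ : Q.IsPrime) {s : LP K} (hs : s ∈ R) (hsQ : s ∉ im R Q) (n : ℕ) :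
    s ^ n ∉ im R Q := by
  induction n with
  | zero =>
    rw [pow_zero]
    exact im_one hQ
  | succ n ih =>
    intro h
    rw [pow_succ] at h
    rcases im_prime hQ (R.pow_mem hs n) hs h with h1 | h1
    · exact ih h1
    · exact hsQ h1

/-- The prime ideal of a larger subalgebra. -/
def up (R R' : Subalgebra k (LP K)) (Q : Ideal R) (s : LP K) (hs : s ∈ R)
    (hR : ∀ f ∈ R', ∃ n : ℕ, s ^ n * f ∈ R) : Ideal R' where
  carrier := {f | ∃ n : ℕ, s ^ n * (f : LP K) ∈ im R Q}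
  add_mem' := by
    rintro f g ⟨n, hn⟩ ⟨m, hm⟩
    refine ⟨n + m, ?_⟩
    have h1 : s ^ (n + m) * ((f + g : R') : LP K) =
        s ^ m * (s ^ n * (f : LP K)) + s ^ n * (s ^ m * (g : LP K)) := by
      push_cast
      ring
    rw [h1]
    exact (im R Q).add_mem (im_mul (R.pow_mem hs m) hn) (im_mul (R.pow_mem hs n) hm)
  zero_mem' := by
    refine ⟨0, ?_⟩
    rw [ZeroMemClass.coe_zero, mul_zero]
    exact (im R Q).zero_mem
  smul_mem' := by
    rintro r f ⟨n, hn⟩
    obtain ⟨m, hm⟩ := hR r r.2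
    refine ⟨m + n, ?_⟩
    have h1 : s ^ (m + n) * ((r • f : R') : LP K) =
        (s ^ m * (r : LP K)) * (s ^ n * (f : LP K)) := by
      rw [smul_eq_mul]
      push_cast
      ring
    rw [h1]
    exact im_mul hm hn

theorem mem_up {s : LP K} {hs : s ∈ R} {hR : ∀ f ∈ R', ∃ n : ℕ, s ^ n * f ∈ R} {f : LP K} :
    f ∈ im R' (up R R' Q s hs hR) ↔ f ∈ R' ∧ ∃ n : ℕ, s ^ n * f ∈ im R Q :=
  ⟨fun h => ⟨h.1, h.2⟩, fun h => ⟨h.1, h.2⟩⟩

theorem up_prime (hQ : Q.IsPrime) {s : LP K} (hs : s ∈ R)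
    (hR : ∀ f ∈ R', ∃ n : ℕ, s ^ n * f ∈ R) (hsQ : s ∉ im R Q) :
    (up R R' Q s hs hR).IsPrime := by
  refine ⟨?_, ?_⟩
  · intro h
    obtain ⟨n, hn⟩ := (Ideal.eq_top_iff_one _).1 h
    rw [OneMemClass.coe_one, mul_one] at hn
    exact im_pow hQ hs hsQ n hn
  · rintro f g ⟨n, hn⟩
    obtain ⟨a, ha⟩ := hR f f.2
    obtain ⟨b, hb⟩ := hR g g.2
    have h1 : (s ^ a * (f : LP K)) * (s ^ b * (g : LP K)) ∈ im R Q ∨ False := by
      left
      by_contra h0
      have h2 : s ^ n * ((s ^ a * (f : LP K)) * (s ^ b * (g : LP K))) ∈ im R Q := by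
        have h3 : s ^ n * ((s ^ a * (f : LP K)) * (s ^ b * (g : LP K))) =
            s ^ (a + b) * (s ^ n * ((f * g : R') : LP K)) := by
          push_cast
          ring
        rw [h3]
        exact im_mul (R.pow_mem hs _) hn
      rcases im_prime hQ (R.pow_mem hs n) (R.mul_mem ha hb) h2 with h3 | h3
      · exact im_pow hQ hs hsQ n h3
      · exact h0 h3
    rcases h1 with h1 | h1
    · rcases im_prime hQ ha hb h1 with h2 | h2
      · exact Or.inl ⟨a, h2⟩
      · exact Or.inr ⟨b, h2⟩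
    · exact h1.elim

/-- The larger ideal is an extension. -/
theorem up_inter (hQ : Q.IsPrime) {s : LP K} {hs : s ∈ R}
    {hR : ∀ f ∈ R', ∃ n : ℕ, s ^ n * f ∈ R} (hsQ : s ∉ im R Q) (hle : R ≤ R') {f : LP K}
    (hf : f ∈ R) : f ∈ im R' (up R R' Q s hs hR) ↔ f ∈ im R Q := by
  rw [mem_up]
  constructor
  · rintro ⟨-, n, hn⟩
    rcases im_prime hQ (R.pow_mem hs n) hf hn with h | h
    · exact (im_pow hQ hs hsQ n h).elim
    · exact h
  · intro h
    refine ⟨hle hf, 0, ?_⟩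
    rwa [pow_zero, one_mul]

end im

/-- `hm d` as a homomorphism. -/
noncomputable def hmh {K : Type} [Field K] (d : ℤ) : K →+ LP K where
  toFun := hm d
  map_zero' := hm_zero d
  map_add' := hm_add d

theorem hmh_apply {K : Type} [Field K] (d : ℤ) (x : K) : hmh d x = hm d x := rfl

section tame

variable {k O K : Type} [CommRing k] [CommRing O] [Field K] [Algebra O K] [Algebra k K]
  {τ : K ≃ₐ[k] K} {l : ℕ} {𝔓 : Ideal O} {C : Subalgebra O K}

/-- In the tame case an ideal with the elements `e T` contains all homogeneous elements of positive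
degree. -/
theorem tame_gen (R' : Subalgebra k (LP K)) (hR' : R' = RR k τ 1 𝔓 l C) (I : Ideal R')
    (hI : ∀ e ∈ 𝔓, hm 1 (algebraMap O K e) ∈ im R' I) (f : LP K)
    (hf : f ∈ R') (d : ℤ) (hd : 0 < d) : hm d (f.coeff d) ∈ im R' I := by
  classical
  let S : Subalgebra k (LP K) :=
    { carrier := {f | ∀ d, hm d (f.coeff d) ∈ R' ∧ (0 < d → hm d (f.coeff d) ∈ im R' I)}
      mul_mem' := by
        intro f g hf hg d
        have hexp : hm d ((f * g).coeff d) = ∑ a ∈ f.coeff.support, ∑ b ∈ g.coeff.support,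
            hm d (if a + b = d then f.coeff a * g.coeff b else 0) := by
          conv_lhs => rw [eq_sum_hm f, eq_sum_hm g, Finset.sum_mul_sum,
            AddMonoidAlgebra.coeff_sum, Finsupp.finsetSum_apply]
          rw [← hmh_apply, map_sum]
          refine Finset.sum_congr rfl fun a _ => ?_
          rw [AddMonoidAlgebra.coeff_sum, Finsupp.finsetSum_apply, map_sum]
          refine Finset.sum_congr rfl fun b _ => ?_
          rw [hm_mul, coeff_hm, hmh_apply]
        have hterm : ∀ a b : ℤ, a + b = d →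
            hm d (f.coeff a * g.coeff b) = hm a (f.coeff a) * hm b (g.coeff b) := by
          intro a b hab
          rw [hm_mul, hab]
        constructor
        · rw [hexp]
          refine R'.sum_mem fun a _ => R'.sum_mem fun b _ => ?_
          split_ifs with h
          · rw [hterm a b h]
            exact R'.mul_mem (hf a).1 (hg b).1
          · rw [hm_zero]
            exact R'.zero_mem
        · intro hd
          rw [hexp]
          refine sum_mem fun a _ => sum_mem fun b _ => ?_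
          split_ifs with h
          · rw [hterm a b h]
            by_cases ha : 0 < a
            · rw [mul_comm]
              exact im_mul (hg b).1 ((hf a).2 ha)
            · exact im_mul (hf a).1 ((hg b).2 (by omega))
          · rw [hm_zero]
            exact zero_mem _
      add_mem' := by
        intro f g hf hg d
        rw [AddMonoidAlgebra.coeff_add, Finsupp.add_apply, hm_add]
        exact ⟨R'.add_mem (hf d).1 (hg d).1, fun hd => add_mem ((hf d).2 hd) ((hg d).2 hd)⟩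
      algebraMap_mem' := by
        intro r d
        rw [algebraMap_LP, coeff_hm]
        split_ifs with h
        · subst h
          exact ⟨R'.algebraMap_mem r, fun h => absurd h (lt_irrefl _)⟩
        · rw [hm_zero]
          exact ⟨R'.zero_mem, fun _ => zero_mem _⟩ }
  have key : ∀ (e : ℤ) (x : K), hm e x ∈ R' → (0 < e → hm e x ∈ im R' I) → hm e x ∈ S := by
    intro e x h1 h2 d
    rw [coeff_hm]
    split_ifs with h
    · rw [← h]
      exact ⟨h1, h2⟩
    · rw [hm_zero]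
      exact ⟨R'.zero_mem, fun _ => zero_mem _⟩
  have hle : R' ≤ S := by
    have h1 : R' = RR k τ 1 𝔓 l C := hR'
    unfold RR at h1
    rw [h1, Algebra.adjoin_le_iff]
    rintro f ((hf | ⟨e, he, rfl⟩) | ⟨a, c, hc, ha, rfl⟩)
    · rw [hf]
      refine key _ _ ?_ (fun h => absurd h (by norm_num))
      rw [hR']
      exact RR_s
    · refine key _ _ ?_ fun _ => hI e he
      rw [hR']
      exact RR_e he
    · obtain rfl : a = 0 := by omega
      rw [wt_zero, Function.iterate_zero_apply]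
      refine key _ _ ?_ (fun h => absurd h (lt_irrefl _))
      rw [hR']
      exact RR_c one_pos hc
  exact (hle hf d).2 hd

end tame

section dedekind

variable {O : Type} [CommRing O]

/-- Local generators of a prime ideal. -/
theorem loc_gen [IsDedekindDomain O] {𝔓 : Ideal O} {π : O} (h1 : π ∈ 𝔓) (h2 : π ∉ 𝔓 ^ 2) :
    ∃ s, s ∉ 𝔓 ∧ ∀ e ∈ 𝔓, ∃ c, s * e = c * π := by
  obtain ⟨J, hJ⟩ := Ideal.dvd_iff_le.2 ((Ideal.span_singleton_le_iff_mem 𝔓).2 h1)
  by_cases h : J ≤ 𝔓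
  · exfalso
    apply h2
    have h3 : π ∈ 𝔓 * J := by
      rw [← hJ]
      exact Ideal.mem_span_singleton_self π
    rw [pow_two]
    exact Ideal.mul_mono_right h h3
  · obtain ⟨s, hs, hs'⟩ := SetLike.not_le_iff_exists.1 h
    refine ⟨s, hs', fun e he => ?_⟩
    have h3 : s * e ∈ Ideal.span {π} := by
      rw [hJ, mul_comm s e]
      exact Ideal.mul_mem_mul he hs
    obtain ⟨c, hc⟩ := Ideal.mem_span_singleton'.1 h3
    exact ⟨c, hc.symm⟩

/-- The square of a maximal ideal is primary. -/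
theorem sq_primary {𝔓 : Ideal O} (hm : 𝔓.IsMaximal) {s y : O} (hs : s ∉ 𝔓)
    (h : s * y ∈ 𝔓 ^ 2) : y ∈ 𝔓 ^ 2 := by
  obtain ⟨x, hx⟩ := hm.exists_inv hs
  obtain ⟨z, hz, hxz⟩ := hx
  have h1 : y = z ^ 2 * y + (2 * x - x ^ 2 * s) * (s * y) := by
    have h2 : z = 1 - x * s := by rw [← hxz]; ring
    rw [h2]
    ring
  rw [h1]
  refine (𝔓 ^ 2).add_mem ?_ ((𝔓 ^ 2).mul_mem_left _ h)
  exact (𝔓 ^ 2).mul_mem_right _ (Ideal.pow_mem_pow hz 2)

end dedekind

/-- An element of all the other maximal ideals. -/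
theorem exists_avoid {O N : Type} [CommRing O] [Finite N] (𝔔 : N → Ideal O)
    (mx : ∀ i, (𝔔 i).IsMaximal) (dj : ∀ i j, 𝔔 i = 𝔔 j → i = j) (i : N) :
    ∃ s, (∀ j, j ≠ i → s ∈ 𝔔 j) ∧ s ∉ 𝔔 i := by
  classical
  have := Fintype.ofFinite N
  have hx : ∀ j, ∃ x, j ≠ i → x ∈ 𝔔 j ∧ x ∉ 𝔔 i := by
    intro j
    by_cases h : j = i
    · exact ⟨0, fun h' => absurd h h'⟩
    · have h1 : ¬ 𝔔 j ≤ 𝔔 i := fun h2 =>
        h (dj j i ((mx j).eq_of_le (mx i).ne_top h2))
      obtain ⟨x, hx1, hx2⟩ := SetLike.not_le_iff_exists.1 h1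
      exact ⟨x, fun _ => ⟨hx1, hx2⟩⟩
  choose x hx using hx
  refine ⟨∏ j ∈ Finset.univ.erase i, x j, ?_, ?_⟩
  · intro j hj
    exact (𝔔 j).mem_of_dvd (Finset.dvd_prod_of_mem x
      (Finset.mem_erase.2 ⟨hj, Finset.mem_univ j⟩)) (hx j hj).1
  · intro h
    have := (mx i).isPrime
    obtain ⟨j, hj, hj'⟩ := (Ideal.IsPrime.prod_mem_iff).1 h
    exact (hx j (Finset.mem_erase.1 hj).1).2 hj'

end Pool.Agent.Y86.G5
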